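import Pool.Agent.H44.GT.Targets
import Pool.Agent.H44.DV.Final

/-!
# Almost every foliation is Morse-Smale or of the second kind
-/

set_option autoImplicit false

namespace Pool.Agent.H4.GD

open Pool.Agent.H44.DU MeasureTheory

/-- Row M_KM: almost every foliation is Morse-Smale or of the second kind. -/
theorem pf_M_KM (h1 : T_CO) (h2 : T_GA) (h3 : D_NA) (h4 : D_TD) (h5 : D_NF) (h6 : D_Z1)
    (h7 : D_Z2) (h8 : D_Z3) (h11 : D_RR) : M_KM := by
  intro n S hc
  refine ⟨?_, ?_, ?_⟩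
  · filter_upwards [ok_ae h1 h2 h3 S, h6 n S, h6 n S.rev] with t ⟨c, hok⟩ k1 k2
    rcases h4 n S t c hc hok with h | ⟨e1, e2⟩
    · exact Or.inl h
    · right
      have e3 : S.rev.TPer t = ∅ := by
        rw [Set.eq_empty_iff_forall_notMem]
        intro p hp
        obtain ⟨r1, r2, -, -⟩ := h11 n S.rev t
        have := (r2 p).1 hp
        rw [(h11 n S t).1, e1] at this
        exact this
      have f1 := h7 n S t k1
        (fun W c' d hcd => h5 n S t c hok.gd hok.pos hok.gain hok.nw e1 W c' d hcd)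
      have f2 := h7 n S.rev t k2
        (fun W c' d hcd => h5 n S.rev t c hok.gdr hok.pos hok.gainr hok.nwr e3 W c' d hcd)
      exact ⟨c, ⟨hok, e1, e2, f1, h8 n S t f2,
        fun W c' d hcd => h5 n S t c hok.gd hok.pos hok.gain hok.nw e1 W c' d hcd⟩⟩
  · intro t h
    obtain ⟨p, m, y, hy, -⟩ := h.ne
    exact ⟨m, y, hy, h.hyp m y hy⟩
  · rintro t c h ⟨m, y, hy, -⟩
    have : y 0 ∈ S.TPer t := ⟨m, y, hy, rfl⟩
    rw [h.per] at this
    exact this

end Pool.Agent.H4.GD
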